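import Pool.Agent.Q32.SK.Fin

/-!
# MP_5b0e2c_al: sharply 2- and 3-transitive actions on the rational Urysohn space

For `k = 2` and for `k = 3` the rational Urysohn space has a structurally sharply `k`-transitive
action by isometries.

The group is a limit of groups obtained by adding new free orbits of points, free products with
groups of permutations of a `k`-set acting generically, and generic permutations which map one
`k`-tuple to another isometric one.
-/

set_option autoImplicit false

namespace Pool.Agent.Results.MP_5b0e2c_al.SharplyTransitive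

open Function

/-- `d` is a metric with rational values. -/
structure IsRationalMetric {X : Type} (d : X → X → ℚ) : Prop where
  self : ∀ x, d x x = 0
  pos : ∀ x y, x ≠ y → 0 < d x y
  symm : ∀ x y, d x y = d y x
  triangle : ∀ x y z, d x z ≤ d x y + d y z

/-- `(M, d)` is a rational Urysohn space: a countable metric space with rational distances, which
contains an isometric copy of every finite metric space with rational distances, and in which every
isometry between finite subsets extends to an isometry of the whole space. -/
structure IsRationalUrysohn (M : Type) (d : M → M → ℚ) : Prop where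
  countable : Countable M
  metric : IsRationalMetric d
  universal : ∀ (n : ℕ) (d₀ : Fin n → Fin n → ℚ), IsRationalMetric d₀ →
    ∃ f : Fin n → M, ∀ x y, d (f x) (f y) = d₀ x y
  homogeneous : ∀ A : Set M, A.Finite → ∀ f : A → M, (∀ x y : A, d (f x) (f y) = d x y) →
    ∃ σ : Equiv.Perm M, (∀ x y, d (σ x) (σ y) = d x y) ∧ ∀ x : A, σ x = f x

theorem isMet_iff {X : Type} (d : X → X → ℚ) : IsRationalMetric d ↔ Q32.SK.IsMet d :=
  ⟨fun h => ⟨h.self, h.pos, h.symm, h.triangle⟩, fun h => ⟨h.self, h.pos, h.symm, h.tri⟩⟩

theorem isQU_iff {M : Type} (d : M → M → ℚ) : IsRationalUrysohn M d ↔ Q32.SK.IsQU M d := by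
  constructor
  · intro h
    exact ⟨h.countable, (isMet_iff d).1 h.metric,
      fun n d₀ h1 => h.universal n d₀ ((isMet_iff d₀).2 h1), h.homogeneous⟩
  · intro h
    exact ⟨h.cnt, (isMet_iff d).2 h.met,
      fun n d₀ h1 => h.univ n d₀ ((isMet_iff d₀).1 h1), h.homog⟩

theorem result :
    (∃ (M : Type) (d : M → M → ℚ), IsRationalUrysohn M d) ∧
    ∀ k, k = 2 ∨ k = 3 → ∀ (M : Type) (d : M → M → ℚ), IsRationalUrysohn M d →
      ∃ (G : Type) (_ : Group G) (_ : MulAction G M),
        (∀ (g : G) (x y : M), d (g • x) (g • y) = d x y) ∧
        ∀ a b : Fin k → M, Injective a → Injective b → (∀ i j, d (a i) (a j) = d (b i) (b j)) →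
          ∃! g : G, ∀ i, g • a i = b i := by
  obtain ⟨h1, h2⟩ := Q32.SK.finC
  constructor
  · obtain ⟨M, d, h⟩ := h1
    exact ⟨M, d, (isQU_iff d).2 h⟩
  · intro k hk M d h
    exact h2 k hk M d ((isQU_iff d).1 h)

end Pool.Agent.Results.MP_5b0e2c_al.SharplyTransitive
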